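import Mathlib
import Pool.Agent.Q18.P.Laws

/-!
# The order of `L(f ⊗ g ⊗ h, s)` at `s = k/2` and Euler products on one sequence of windows

`f`, `g`, `h` are eigenforms of weights `k`, `1`, `1` with `χ_f χ_g χ_h = 1`, and `F(s) = L^S(f ⊗ g ⊗ h, s)` is the
triple product `L`-function without the Euler factors of a finite set `S` of primes which contains the primes dividing
the levels. It is known (Garrett, Piatetski-Shapiro and Rallis, Ikeda, Ramakrishnan) that `F` is entire and of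
polynomial growth in vertical strips; the missing factors have no zeros and poles on the line `Re s = k/2` and to the
right of it. Let

`P(y) = ∏_{p ∉ S, p ≤ y} |L_p(f ⊗ g ⊗ h, k/2)|⁻¹`,
`P*(y) = exp (- ∑_{p ∉ S, p^n ≤ y} t_f(p^n) t_g(p^n) t_h(p^n) / (n p^(nk/2)))`,

`t_f(p^n) = α_p^n + β_p^n` the power sums of the Satake parameters. Fix `0 < δ < 1`. The windows are the intervals
`[Y^(1-δ), Y]`. We prove, without any unproved hypothesis, the equivalence of (a), (b), (c) in each of the following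
cases; here (b) holds `for arbitrarily large Y`, i.e. on one sequence of windows, which may be as sparse as we like, and
(c) is the same condition for all large `Y`.

1. (a) the Riemann hypothesis for `F` and `ord_{s=k/2} F ≤ κ`; (b), (c) `∫ max (log P - κ log log y, 0) dy/y ≤ B log Y`
   over the window, for some `B`; `κ` is any real number.
2. (a) the Riemann hypothesis for `F` and `ord_{s=k/2} F = m`; (b), (c) `∫ |log P - m log log y| dy/y ≤ B log Y` for
   some `B`.
3. (a) the Riemann hypothesis for `F`, `ord_{s=k/2} F = m`, and the leading coefficient is `A > 0`;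
   (b), (c) `∫ |log (A P*(y) / (e^γ log y)^m)| dy/y ≤ ε log Y` for every `ε > 0`.
4. (Parity.) If the order at `k/2` has the parity of `r` (e.g. if `r` is even and the local signs at the finite primes
   are `1`), then the Riemann hypothesis for `F` with `ord ≤ r` is equivalent to (b), (c) of 1. for ANY `κ` with
   `r ≤ κ < r + 2`; if moreover `r ≤ 1`, it says `ord = r`.
5. If `ord_{s=k/2} F = m`, with the leading coefficient `a`, and `A > |a|`, then there is a `β > 0` with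
   `∫ max (log (A P*(y) / (e^γ log y)^m), 0) dy/y > β log Y` over ALL windows with large `Y`.

With `r = dim Hom(V_gh, CH^{k/2}(W/H)_0^[f])` Beilinson's conjecture for `(f, g, h)` together with the Riemann hypothesis is
the case `m = r` of 2., and one half of it is the case `κ = r` of 1.
-/

set_option autoImplicit false

namespace Pool.Agent.Results.MP_60ff09_nt.TripleEulerProducts

open Filter Topology Set Complex NumberField IsDedekindDomain MeasureTheory ComplexConjugate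
open Pool.Agent.Q18.P (norm Holo NoZeros Order IsLeading MeanBound excess error ratio upTo)

/-- the finite places of `ℚ`, that is, the primes `p`; `norm v` is the prime number `p` -/
abbrev Prime := HeightOneSpectrum (𝓞 ℚ)

/-- The Satake parameters of an eigenform of weight `k` and nebentypus `χ` at the primes outside of `S`: they are the
roots `x 0`, `x 1` of `X^2 - a(p) X + χ(p) p^(k-1)`, and have absolute value `p^((k-1)/2)` (Deligne, Deligne-Serre). -/
structure Satake (k : ℕ) (S : Finset Prime) (χ : Prime → ℂ) (x : Prime → Fin 2 → ℂ) : Prop where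
  mul : ∀ v, v ∉ S → x v 0 * x v 1 = χ v * (norm v : ℂ) ^ (k - 1)
  abs : ∀ v, v ∉ S → ∀ j, ‖x v j‖ ^ 2 = (norm v : ℝ) ^ (k - 1)

/-- the inverse of the Euler factor, `∏_{i,j,l} (1 - x_i y_j z_l p^{-s})` -/
noncomputable def factor (x y z : Prime → Fin 2 → ℂ) (v : Prime) (s : ℂ) : ℂ :=
  ∏ i, ∏ j, ∏ l, (1 - x v i * y v j * z v l * (norm v : ℂ) ^ (-s))

/-- `F` is entire, of polynomial growth in a half plane `Re s > k/2 - η`, and for `Re s > (k+1)/2` it is the Euler
product over the primes outside of `S`. -/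
structure IsTriple (k : ℕ) (S : Finset Prime) (x y z : Prime → Fin 2 → ℂ) (F : ℂ → ℂ) : Prop where
  holo : Holo ((k : ℝ) / 2) F
  euler : ∀ s : ℂ, ((k : ℝ) + 1) / 2 < s.re →
    HasProd (fun v : {v : Prime // v ∉ S} => (factor x y z v.1 s)⁻¹) (F s)

/-- `P(Y) = ∏_{p ∉ S, p ≤ Y} |∏_{i,j,l} (1 - x_i y_j z_l p^{-k/2})|` -/
noncomputable def product (k : ℕ) (S : Finset Prime) (x y z : Prime → Fin 2 → ℂ) (Y : ℝ) : ℝ :=
  ∏ᶠ v ∈ upTo S Y, ‖factor x y z v (((k : ℝ) / 2 : ℝ) : ℂ)‖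

/-- `t(p^n) = x_0^n + x_1^n` -/
noncomputable def trace (x : Prime → Fin 2 → ℂ) (v : Prime) (n : ℕ) : ℂ := x v 0 ^ n + x v 1 ^ n

/-- `P*(Y) = exp (- ∑_{p ∉ S, p^n ≤ Y} t_f(p^n) t_g(p^n) t_h(p^n) / (n p^(nk/2)))`, `n = q.2 + 1 ≥ 1` -/
noncomputable def productStar (k : ℕ) (S : Finset Prime) (x y z : Prime → Fin 2 → ℂ) (Y : ℝ) : ℝ :=
  Real.exp (-∑ᶠ (q : {v : Prime // v ∉ S} × ℕ) (_ : (norm q.1.1 : ℝ) ^ (q.2 + 1) ≤ Y),
      (trace x q.1.1 (q.2 + 1) * trace y q.1.1 (q.2 + 1) * trace z q.1.1 (q.2 + 1)).re /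
        (((q.2 : ℝ) + 1) * ((norm q.1.1 : ℝ) ^ ((k : ℝ) / 2)) ^ (q.2 + 1)))

/-! ### translation -/

/-- the eight parameters -/
noncomputable def par (x y z : Prime → Fin 2 → ℂ) (v : Prime) (n : Fin (2 * (2 * 2))) : ℂ :=
  x v (finProdFinEquiv.symm n).1 * y v (finProdFinEquiv.symm (finProdFinEquiv.symm n).2).1 *
    z v (finProdFinEquiv.symm (finProdFinEquiv.symm n).2).2

theorem sum_par (x y z : Prime → Fin 2 → ℂ) (v : Prime) (n : ℕ) :
    ∑ j, par x y z v j ^ n = trace x v n * trace y v n * trace z v n := by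
  unfold par trace
  rw [← finProdFinEquiv.sum_comp, Fintype.sum_prod_type]
  simp only [Equiv.symm_apply_apply]
  have e1 : ∀ i : Fin 2, ∑ w : Fin (2 * 2), (x v i * y v (finProdFinEquiv.symm w).1 *
      z v (finProdFinEquiv.symm w).2) ^ n = ∑ j : Fin 2, ∑ l : Fin 2, (x v i * y v j * z v l) ^ n := by
    intro i
    rw [← finProdFinEquiv.sum_comp, Fintype.sum_prod_type]
    simp only [Equiv.symm_apply_apply]
  rw [Finset.sum_congr rfl fun i _ => e1 i]
  simp only [Fin.sum_univ_two, mul_pow]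
  ring

theorem factor_par (x y z : Prime → Fin 2 → ℂ) (v : Prime) (s : ℂ) :
    factor x y z v s = ∏ j, (1 - par x y z v j * (norm v : ℂ) ^ (-s)) := by
  unfold par factor
  symm
  rw [← finProdFinEquiv.prod_comp, Fintype.prod_prod_type]
  simp only [Equiv.symm_apply_apply]
  refine Finset.prod_congr rfl fun i _ => ?_
  rw [← finProdFinEquiv.prod_comp, Fintype.prod_prod_type]
  simp only [Equiv.symm_apply_apply]

variable {k : ℕ} {S : Finset Prime} {χ : Fin 3 → Prime → ℂ} {x y z : Prime → Fin 2 → ℂ} {F : ℂ → ℂ}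

theorem conj_trace {χ : Prime → ℂ} (h : Satake k S χ x) {v : Prime} (hv : v ∉ S) (n : ℕ) :
    conj (trace x v n) = conj (χ v) ^ n * trace x v n := by
  have hp : (0 : ℝ) < norm v := by
    have : (2 : ℝ) ≤ norm v := by exact_mod_cast Pool.Agent.H921R2.TatePole.two_le_nm v
    linarith
  have hr : (0 : ℝ) < (norm v : ℝ) ^ (k - 1) := by positivity
  have h0 := h.abs v hv 0
  have h1 := h.abs v hv 1
  have hm := h.mul v hv
  have c0 : x v 0 * conj (x v 0) = (((norm v : ℝ) ^ (k - 1) : ℝ) : ℂ) := by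
    rw [Complex.mul_conj, Complex.normSq_eq_norm_sq, h0]
  have c1 : x v 1 * conj (x v 1) = (((norm v : ℝ) ^ (k - 1) : ℝ) : ℂ) := by
    rw [Complex.mul_conj, Complex.normSq_eq_norm_sq, h1]
  have hrr : (((norm v : ℝ) ^ (k - 1) : ℝ) : ℂ) = (norm v : ℂ) ^ (k - 1) := by push_cast; rfl
  have hr0 : (norm v : ℂ) ^ (k - 1) ≠ 0 := by
    rw [← hrr]
    exact_mod_cast hr.ne'
  have hcm : conj (x v 0) * conj (x v 1) = conj (χ v) * (norm v : ℂ) ^ (k - 1) := by
    rw [← map_mul, hm, map_mul, map_pow, Complex.conj_natCast]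
  rw [hrr] at c0 c1
  have a0 : conj (x v 0) = conj (χ v) * x v 1 := by
    have : conj (x v 0) * (norm v : ℂ) ^ (k - 1) = conj (χ v) * x v 1 * (norm v : ℂ) ^ (k - 1) := by
      calc conj (x v 0) * (norm v : ℂ) ^ (k - 1) = conj (x v 0) * (x v 1 * conj (x v 1)) := by rw [c1]
        _ = (conj (x v 0) * conj (x v 1)) * x v 1 := by ring
        _ = _ := by rw [hcm]; ring
    exact mul_right_cancel₀ hr0 this
  have a1 : conj (x v 1) = conj (χ v) * x v 0 := by
    have : conj (x v 1) * (norm v : ℂ) ^ (k - 1) = conj (χ v) * x v 0 * (norm v : ℂ) ^ (k - 1) := by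
      calc conj (x v 1) * (norm v : ℂ) ^ (k - 1) = conj (x v 1) * (x v 0 * conj (x v 0)) := by rw [c0]
        _ = (conj (x v 0) * conj (x v 1)) * x v 0 := by ring
        _ = _ := by rw [hcm]; ring
    exact mul_right_cancel₀ hr0 this
  unfold trace
  rw [map_add, map_pow, map_pow, a0, a1, mul_pow, mul_pow]
  ring

theorem abs_le (h : Satake k S (χ 0) x) {v : Prime} (hv : v ∉ S) (j : Fin 2) :
    ‖x v j‖ = (norm v : ℝ) ^ (((k - 1 : ℕ) : ℝ) / 2) := by
  have hp : (0 : ℝ) ≤ norm v := Nat.cast_nonneg _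
  have h0 := h.abs v hv j
  have h1 : ((norm v : ℝ) ^ (((k - 1 : ℕ) : ℝ) / 2)) ^ 2 = (norm v : ℝ) ^ (k - 1) := by
    rw [← Real.rpow_natCast, ← Real.rpow_mul hp, Nat.cast_ofNat, div_mul_cancel₀ _ (by norm_num : (2 : ℝ) ≠ 0),
      Real.rpow_natCast]
  have h2 : 0 ≤ (norm v : ℝ) ^ (((k - 1 : ℕ) : ℝ) / 2) := Real.rpow_nonneg hp _
  have h3 : ‖x v j‖ ^ 2 = ((norm v : ℝ) ^ (((k - 1 : ℕ) : ℝ) / 2)) ^ 2 := by rw [h0, h1]
  exact (pow_left_inj₀ (norm_nonneg _) h2 (by norm_num)).1 h3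

theorem abs_one {χ : Prime → ℂ} {x : Prime → Fin 2 → ℂ} (h : Satake 1 S χ x) {v : Prime} (hv : v ∉ S) (j : Fin 2) :
    ‖x v j‖ = 1 := by
  have h0 := h.abs v hv j
  rw [Nat.sub_self, pow_zero] at h0
  have h3 : ‖x v j‖ ^ 2 = (1 : ℝ) ^ 2 := by rw [h0, one_pow]
  exact (pow_left_inj₀ (norm_nonneg _) zero_le_one (by norm_num)).1 h3

theorem pure (hx : Satake k S (χ 0) x) (hy : Satake 1 S (χ 1) y) (hz : Satake 1 S (χ 2) z)
    (hχ : ∀ v, v ∉ S → χ 0 v * χ 1 v * χ 2 v = 1) : Pool.Agent.Q18.P.Pure (k - 1) S (par x y z) where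
  le := fun v hv j => by
    unfold par
    rw [norm_mul, norm_mul, abs_one hy hv, abs_one hz hv, mul_one, mul_one, abs_le hx hv]
  real := fun v hv n => by
    rw [sum_par, ← Complex.conj_eq_iff_im, map_mul, map_mul, conj_trace hx hv, conj_trace hy hv, conj_trace hz hv]
    have h1 : conj (χ 0 v) ^ n * conj (χ 1 v) ^ n * conj (χ 2 v) ^ n = 1 := by
      rw [← mul_pow, ← mul_pow, ← map_mul, ← map_mul, hχ v hv, map_one, one_pow]
    calc _ = (conj (χ 0 v) ^ n * conj (χ 1 v) ^ n * conj (χ 2 v) ^ n) *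
        (trace x v n * trace y v n * trace z v n) := by ring
      _ = _ := by rw [h1, one_mul]

theorem product_eq : product k S x y z = Pool.Agent.Q18.P.product ((k : ℝ) / 2) S (par x y z) := by
  funext Y
  unfold product Pool.Agent.Q18.P.product
  refine finprod_congr fun v => finprod_congr fun _ => ?_
  rw [factor_par]

theorem star_eq : productStar k S x y z = Pool.Agent.Q18.P.productStar ((k : ℝ) / 2) S (par x y z) := by
  funext Y
  unfold productStar Pool.Agent.Q18.P.productStar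
  congr 2
  refine finsum_congr fun p => ?_
  rw [sum_par]

/-- **Triple products of weights `(k, 1, 1)`: the central order, the leading coefficient and the Riemann hypothesis from
Euler products on one sequence of windows.** -/
theorem result (k : ℕ) (hk : 1 ≤ k) (S : Finset Prime) (χ : Fin 3 → Prime → ℂ) (x y z : Prime → Fin 2 → ℂ)
    (hx : Satake k S (χ 0) x) (hy : Satake 1 S (χ 1) y) (hz : Satake 1 S (χ 2) z)
    (hχ : ∀ v, v ∉ S → χ 0 v * χ 1 v * χ 2 v = 1) (F : ℂ → ℂ) (hF : IsTriple k S x y z F)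
    (δ : ℝ) (h0 : 0 < δ) (h1 : δ < 1) :
    -- (1) upper bounds for the order
    (∀ κ : ℝ, List.TFAE [
      NoZeros ((k : ℝ) / 2) F ∧ ∃ m : ℤ, Order ((k : ℝ) / 2) F m ∧ (m : ℝ) ≤ κ,
      ∃ B : ℝ, ∃ᶠ Y : ℝ in atTop, MeanBound δ (excess (product k S x y z) κ) B Y,
      ∃ B : ℝ, ∀ᶠ Y : ℝ in atTop, MeanBound δ (excess (product k S x y z) κ) B Y]) ∧
    -- (2) the order
    (∀ m : ℤ, List.TFAE [
      NoZeros ((k : ℝ) / 2) F ∧ Order ((k : ℝ) / 2) F m,
      ∃ B : ℝ, ∃ᶠ Y : ℝ in atTop, MeanBound δ (error (product k S x y z) m) B Y,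
      ∃ B : ℝ, ∀ᶠ Y : ℝ in atTop, MeanBound δ (error (product k S x y z) m) B Y]) ∧
    -- (3) the order and the leading coefficient
    (∀ (m : ℤ) (A : ℝ), 0 < A → List.TFAE [
      NoZeros ((k : ℝ) / 2) F ∧ IsLeading ((k : ℝ) / 2) F m A,
      ∀ ε : ℝ, 0 < ε → ∃ᶠ Y : ℝ in atTop, MeanBound δ (fun t => |ratio (productStar k S x y z) A m t|) ε Y,
      ∀ ε : ℝ, 0 < ε → ∀ᶠ Y : ℝ in atTop, MeanBound δ (fun t => |ratio (productStar k S x y z) A m t|) ε Y]) ∧
    -- (4) parity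
    (∀ r : ℤ, (∀ m : ℤ, Order ((k : ℝ) / 2) F m → 2 ∣ m - r) → ∀ κ : ℝ, r ≤ κ → κ < r + 2 →
      List.TFAE [
        NoZeros ((k : ℝ) / 2) F ∧ ∃ m : ℤ, Order ((k : ℝ) / 2) F m ∧ m ≤ r,
        ∃ B : ℝ, ∃ᶠ Y : ℝ in atTop, MeanBound δ (excess (product k S x y z) κ) B Y,
        ∃ B : ℝ, ∀ᶠ Y : ℝ in atTop, MeanBound δ (excess (product k S x y z) κ) B Y] ∧
      ((0 ≤ r ∧ r ≤ 1) → ∀ m : ℤ, Order ((k : ℝ) / 2) F m → m ≤ r → m = r)) ∧
    -- (5) in every window
    (∀ (m : ℤ) (a : ℂ), IsLeading ((k : ℝ) / 2) F m a → ∀ A : ℝ, ‖a‖ < A → ∃ β : ℝ, 0 < β ∧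
      ∀ᶠ Y : ℝ in atTop, ¬ MeanBound δ (fun t => max (ratio (productStar k S x y z) A m t) 0) β Y) := by
  have hc : (k : ℝ) / 2 = (((k - 1 : ℕ) : ℝ) + 1) / 2 := by
    rw [Nat.cast_sub hk, Nat.cast_one, sub_add_cancel]
  have hE : Pool.Agent.Q18.P.Euler ((k : ℝ) / 2) S (par x y z) F := by
    intro s hs
    refine (hF.euler s (by linarith)).congr_fun fun v => ?_
    rw [factor_par]
  have hP := pure hx hy hz hχ
  have L := Pool.Agent.Q18.P.laws hc hP.le hF.holo hE h0 h1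
  rw [product_eq, star_eq]
  refine ⟨L.upper, L.order, fun m A hA => Pool.Agent.Q18.P.Laws.lead_real hc hP hF.holo hE h0 h1 m hA,
    fun r hp κ h2 h3 => ⟨L.parity hp h2 h3, fun hr m hm hmr => ?_⟩, L.omega⟩
  have h4 := hp m hm
  have h5 := Pool.Agent.Q18.P.order_nonneg hF.holo hm
  omega

end Pool.Agent.Results.MP_60ff09_nt.TripleEulerProducts
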