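import Pool.Agent.Q45.ML.Par

/-!
# The order of vanishing of `L(f ⊗ g ⊗ h, s)` at `s = k/2` from smoothed sums of Hecke eigenvalues

Let `f` have even weight `k`, `g`, `h` weight one, `Sb` a finite set of primes containing the bad ones; for `p ∉ Sb` let
`a p i` (`|a p i| ≤ p^{(k-1)/2}`), `b p i`, `c p i` (`|b|, |c| ≤ 1`) be the two Satake parameters of `f`, `g`, `h` at
`p`. Let `F` continue `∏_{p ∉ Sb} ∏_{i,j,l} (1 - a p i b p j c p l p^{-s})⁻¹` (the Euler factors at the primes in `Sb` have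
neither zero nor pole at `s = k/2`, so `F` has the same order there as `L(f ⊗ g ⊗ h, s)`). For `γ > π/2` put

`S(T) = ∑_{p ∉ Sb} ∑_{m ≥ 1} t_f(p^m) t_g(p^m) t_h(p^m) / (m p^{mk/2}) e^{iγ m log p/T} / Γ(1 + m log p/T)`,

`t_f(p^m) = a p 0^m + a p 1^m` etc. Then `S(T) = r - ord (log T - Λ) + O(1/T)` with `e^r` the leading coefficient; this
gives exact criteria for the predicted value of the order and for its parity, along one sequence `T → ∞`.
-/

set_option autoImplicit false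

namespace Pool.Agent.Results.MP_60ff09_nt.TripleProductOrder

open Filter Topology Asymptotics Pool.Agent.Q45.ML

/-- the term at `(p, m)`, `m = z.2 + 1` -/
noncomputable def term (Sb : Finset Nat.Primes) (k : ℕ) (a b c : Nat.Primes → Fin 2 → ℂ) (γ T : ℝ)
    (z : {p : Nat.Primes // p ∉ Sb} × ℕ) : ℂ :=
  (∑ i, a z.1 i ^ (z.2 + 1)) * (∑ i, b z.1 i ^ (z.2 + 1)) * (∑ i, c z.1 i ^ (z.2 + 1)) /
      ((z.2 + 1) * (z.1.1 : ℂ) ^ ((((z.2 + 1) * (k / 2 : ℝ)) : ℝ) : ℂ)) *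
    (Complex.exp ((γ * ((z.2 + 1) * Real.log (z.1.1 : ℝ) / T) : ℝ) * Complex.I) /
      (Real.Gamma (1 + (z.2 + 1) * Real.log (z.1.1 : ℝ) / T) : ℂ))

/-- the smoothed sum -/
noncomputable def S (Sb : Finset Nat.Primes) (k : ℕ) (a b c : Nat.Primes → Fin 2 → ℂ) (γ T : ℝ) : ℂ :=
  ∑' z, term Sb k a b c γ T z

/-- the constant `Λ(γ) = ∫_0^∞ (e^{-t} - e^{iγt}/Γ(1+t)) dt/t` -/
noncomputable def Lam (γ : ℝ) : ℂ := Pool.Agent.W187.UR.Lam γ

/-- the even integers, as real numbers -/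
def evens : Set ℝ := {x | ∃ j : ℤ, x = 2 * j}

/-- the eight parameters -/
def par (Sb : Finset Nat.Primes) (a b c : Nat.Primes → Fin 2 → ℂ) (p : {p : Nat.Primes // p ∉ Sb})
    (i : Fin 2 × Fin 2 × Fin 2) : ℂ := a p i.1 * b p i.2.1 * c p i.2.2

theorem sum_par (Sb : Finset Nat.Primes) (a b c : Nat.Primes → Fin 2 → ℂ)
    (p : {p : Nat.Primes // p ∉ Sb}) (m : ℕ) : ∑ i, par Sb a b c p i ^ m =
      (∑ i, a p i ^ m) * (∑ i, b p i ^ m) * (∑ i, c p i ^ m) := by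
  unfold par
  rw [Fintype.sum_prod_type]
  simp only [Fintype.sum_prod_type, Fin.sum_univ_two, mul_pow]
  ring

theorem term_eq (Sb : Finset Nat.Primes) (k : ℕ) (a b c : Nat.Primes → Fin 2 → ℂ) (γ T : ℝ)
    (z : {p : Nat.Primes // p ∉ Sb} × ℕ) : term Sb k a b c γ T z =
      sterm (fun p : {p : Nat.Primes // p ∉ Sb} => (p.1 : ℝ)) (reidx (par Sb a b c)) (k / 2) γ T z := by
  unfold term sterm
  rw [sum_reidx, sum_par]
  rfl

theorem result {k : ℕ} (hk : 2 ≤ k) (Sb : Finset Nat.Primes) (a b c : Nat.Primes → Fin 2 → ℂ)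
    (ha : ∀ p ∉ Sb, ∀ i, ‖a p i‖ ≤ (p : ℝ) ^ (((k : ℝ) - 1) / 2))
    (hb : ∀ p ∉ Sb, ∀ i, ‖b p i‖ ≤ 1) (hc : ∀ p ∉ Sb, ∀ i, ‖c p i‖ ≤ 1)
    (F : ℂ → ℂ) (hmer : ∀ σ : ℝ, (k : ℝ) / 2 ≤ σ → σ ≤ ((k : ℝ) + 1) / 2 → MeromorphicAt F (σ : ℂ))
    (hF : ∀ s : ℂ, ((k : ℝ) + 1) / 2 < s.re → HasProd (fun p : {p : Nat.Primes // p ∉ Sb} =>
      ∏ i : Fin 2 × Fin 2 × Fin 2, (1 - a p i.1 * b p i.2.1 * c p i.2.2 * (p.1 : ℂ) ^ (-s))⁻¹) (F s))
    {γ : ℝ} (hγ : Real.pi / 2 < γ) :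
    (∀ T : ℝ, 0 < T → Summable fun z => ‖term Sb k a b c γ T z‖) ∧
    ∃ (m : ℤ) (r : ℂ), meromorphicOrderAt F (((k : ℝ) / 2 : ℝ) : ℂ) = m ∧
      Complex.exp r = meromorphicTrailingCoeffAt F (((k : ℝ) / 2 : ℝ) : ℂ) ∧
      (fun T : ℝ => S Sb k a b c γ T - (r - m * (Real.log T - Lam γ))) =O[atTop] (fun T : ℝ => 1 / T) ∧
      (∀ d : ℕ, List.TFAE [m = d,
        ∃ M : ℝ, ∀ᶠ T : ℝ in atTop, |(S Sb k a b c γ T).re + d * Real.log T| ≤ M,
        Tendsto (fun T : ℝ => (S Sb k a b c γ T).re / Real.log T) atTop (𝓝 (-d)),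
        ∃ t : ℕ → ℝ, Tendsto t atTop atTop ∧
          Tendsto (fun n => (S Sb k a b c γ (t n)).re / Real.log (t n)) atTop (𝓝 (-d))]) ∧
      List.TFAE [Even m,
        Tendsto (fun T : ℝ => Metric.infDist (-(S Sb k a b c γ T).re / Real.log T) evens) atTop (𝓝 0),
        ∃ t : ℕ → ℝ, Tendsto t atTop atTop ∧ Tendsto
          (fun n => Metric.infDist (-(S Sb k a b c γ (t n)).re / Real.log (t n)) evens) atTop (𝓝 0)] := by
  have hk' : (2 : ℝ) ≤ k := by exact_mod_cast hk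
  have hE : Eul (Fintype.card (Fin 2 × Fin 2 × Fin 2))
      (fun p : {p : Nat.Primes // p ∉ Sb} => (p.1 : ℝ)) (reidx (par Sb a b c)) (((k : ℝ) - 1) / 2) 1 := by
    refine ⟨zero_le_one, fun p => by exact_mod_cast p.1.2.two_le, fun σ hσ => ?_, fun p j => ?_⟩
    · exact (Nat.Primes.summable_rpow.2 (by linarith : -σ < -1)).subtype _
    · unfold reidx par
      rw [norm_mul, norm_mul]
      calc _ ≤ (p.1 : ℝ) ^ (((k : ℝ) - 1) / 2) * 1 * 1 := by
            gcongr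
            · exact ha p.1 p.2 _
            · exact hb p.1 p.2 _
            · exact hc p.1 p.2 _
        _ = _ := by rw [mul_one, mul_one]
  have hS : ∀ T, smooth (fun p : {p : Nat.Primes // p ∉ Sb} => (p.1 : ℝ)) (reidx (par Sb a b c))
      (k / 2) γ T = S Sb k a b c γ T := by
    intro T
    unfold smooth S
    simp only [term_eq]
  obtain ⟨m, r, h1, h2, h3⟩ := hE.lawC (F := F) (s₀ := k / 2) (by linarith)
    (fun x hx hx1 => hmer x hx (by linarith))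
    (fun s hs => by
      refine (hF s (by linarith)).congr_fun fun p => ?_
      rw [prod_reidx]
      rfl) hγ
  simp only [hS] at h3
  refine ⟨fun T hT => ?_, m, r, h1, h2, h3, fun d => ?_, ?_⟩
  · simp only [term_eq]
    exact hE.sterm_summable _ γ hT
  · have := order_tfae h3 (d : ℤ)
    simpa using this
  · have h4 := order_mod h3 (M := 2) (by norm_num) 0
    have e1 : (((2 : ℕ) : ℤ) ∣ m - 0) ↔ Even m := by
      rw [sub_zero, even_iff_two_dvd]; rfl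
    have e2 : resClass 2 0 = evens := by
      ext x
      simp [resClass, evens]
    rw [e1, e2] at h4
    exact h4

end Pool.Agent.Results.MP_60ff09_nt.TripleProductOrder
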