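import Mathlib
import Pool.Agent.Q190.RV.Laws
import Pool.Agent.Q190.RV.Triple

/-!
# The order of `L(f ⊗ g ⊗ h, s)` at `s = k/2` and ratios of Euler products

`f`, `g`, `h` are eigenforms of weights `k`, `1`, `1` with `χ_f χ_g χ_h = 1`, and `F(s) = L^S(f ⊗ g ⊗ h, s)` is the
triple product `L`-function without the Euler factors of a finite set `S` of primes which contains the primes dividing
the levels. It is known (Garrett, Piatetski-Shapiro and Rallis, Ikeda, Ramakrishnan) that `F` is entire and of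
polynomial growth in vertical strips; the missing factors have no zeros and poles on the line `Re s = k/2` and to the
right of it. Let `m = ord_{s=k/2} F` and

`P(y) = ∏_{p ∉ S, p ≤ y} |L_p(f ⊗ g ⊗ h, k/2)|⁻¹`,
`P*(y) = exp (- ∑_{p ∉ S, p^n ≤ y} t_f(p^n) t_g(p^n) t_h(p^n) / (n p^(nk/2)))`,

`t_f(p^n) = α_p^n + β_p^n` the power sums of the Satake parameters. We prove, without any unproved hypothesis, for
`R = P` and for `R = P*` (inequalities are for all large `y`):

1. (ONE exponent.) If `R(y^l) ≤ Q R(y)` for one `l > 1`, then `F` has no zeros with `Re s > k/2`, and `l^m ≤ Q`; if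
   moreover `q R(y) ≤ R(y^l)`, `q > 0`, then `q ≤ l^m`. If `R(y^l) / R(y)` converges to `ρ` for one `l > 1`, then `F` has no
   zeros with `Re s > k/2`, and `ρ = l^m`. So Beilinson's equality `m = r`, `r = dim Hom(V_gh, CH^{k/2}(W/H)_0^[f])`, is
   decided by one exponent as soon as the ratios stay between `q` and `Q`, if no power of `l` but one lies in `[q, Q]`, and
   it is `ρ = l^r` if there is a limit.
2. `P(y)` has the order of magnitude `(log y)^κ` (`κ` real) if and only if `κ = m` and `P` is regular: for all `l` in a set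
   of positive outer measure in `(1, ∞)` there is a `Q(l)` with `P(y^l) ≤ Q(l) P(y)`.
3. Let (R) be the condition that `P*(y^l) / P*(y)` converges for all `l` in a set of positive outer measure in `(1, ∞)`.
   For `A > 0` and an integer `r ≥ 0`: `(e^γ log y)^r / P*(y)` converges to `A` if and only if (R) holds, `m = r`, and `A` is
   the leading coefficient of `F` at `k/2`. Further (R) holds if and only if `P*(y) / (log y)^κ` converges to a positive
   number for some real `κ`, and then the leading coefficient is positive.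
-/

set_option autoImplicit false

namespace Pool.Agent.Results.MP_60ff09_nt.TripleProductRatios

open Filter Topology Set Complex NumberField IsDedekindDomain MeasureTheory ComplexConjugate
open Pool.Agent.Q18.P (norm)
open Pool.Agent.Q190.RV.Triple (Prime Satake factor product productStar)

/-- `F` is holomorphic and of polynomial growth in a half plane `Re s > k/2 - η`, and for `Re s > (k+1)/2` it is the Euler
product over the primes outside of `S`. -/
structure IsTriple (k : ℕ) (S : Finset Prime) (x y z : Prime → Fin 2 → ℂ) (F : ℂ → ℂ) : Prop where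
  holo : ∃ (η C : ℝ) (j : ℕ), 0 < η ∧ ∀ s : ℂ, (k : ℝ) / 2 - η < s.re → DifferentiableAt ℂ F s ∧ ‖F s‖ ≤ C * (1 + ‖s‖) ^ j
  euler : ∀ s : ℂ, ((k : ℝ) + 1) / 2 < s.re →
    HasProd (fun v : {v : Prime // v ∉ S} => (factor x y z v.1 s)⁻¹) (F s)

/-- `F` has no zeros with `Re s > k/2`. -/
def NoZeros (k : ℕ) (F : ℂ → ℂ) : Prop := ∀ s : ℂ, (k : ℝ) / 2 < s.re → F s ≠ 0

/-- `R(y^l) ≤ Q R(y)` for all large `y` -/
def Upper (R : ℝ → ℝ) (l Q : ℝ) : Prop := ∀ᶠ y : ℝ in atTop, R (y ^ l) ≤ Q * R y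

/-- `q R(y) ≤ R(y^l)` for all large `y` -/
def Lower (R : ℝ → ℝ) (l q : ℝ) : Prop := ∀ᶠ y : ℝ in atTop, q * R y ≤ R (y ^ l)

/-- There is a set `Λ ⊆ (1, ∞)` of positive (outer) Lebesgue measure such that for every `l ∈ Λ` there is a `Q` with
`R(y^l) ≤ Q R(y)` for all large `y`. -/
def Regular (R : ℝ → ℝ) : Prop :=
  ∃ Λ : Set ℝ, Λ ⊆ Ioi 1 ∧ volume Λ ≠ 0 ∧ ∀ l ∈ Λ, ∃ Q : ℝ, Upper R l Q

/-- There is a set `Λ ⊆ (1, ∞)` of positive (outer) Lebesgue measure such that for every `l ∈ Λ` the ratio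
`R(y^l) / R(y)` converges as `y → ∞`. -/
def Conv (R : ℝ → ℝ) : Prop :=
  ∃ Λ : Set ℝ, Λ ⊆ Ioi 1 ∧ volume Λ ≠ 0 ∧ ∀ l ∈ Λ, ∃ r : ℝ, Tendsto (fun y : ℝ => R (y ^ l) / R y) atTop (𝓝 r)

/-- `R(y) ≍ (log y)^κ` -/
def OfOrder (R : ℝ → ℝ) (κ : ℝ) : Prop :=
  ∃ a b : ℝ, 0 < a ∧ ∀ᶠ y : ℝ in atTop, a * Real.log y ^ κ ≤ R y ∧ R y ≤ b * Real.log y ^ κ

/-- The leading coefficient of `F` at `k/2` is `A`, when the order is `m`: `F(s) / (s - k/2)^m → A`. -/
def Leading (k : ℕ) (F : ℂ → ℂ) (m : ℕ) (A : ℂ) : Prop :=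
  Tendsto (fun s : ℂ => F s / (s - (((k : ℝ) / 2 : ℝ) : ℂ)) ^ m) (𝓝[≠] (((k : ℝ) / 2 : ℝ) : ℂ)) (𝓝 A)

/-- **Triple products of weights `(k, 1, 1)`: the central order from ratios of Euler products.** -/
theorem result (k : ℕ) (hk : 1 ≤ k) (S : Finset Prime) (χ : Fin 3 → Prime → ℂ) (x y z : Prime → Fin 2 → ℂ)
    (hx : Satake k S (χ 0) x) (hy : Satake 1 S (χ 1) y) (hz : Satake 1 S (χ 2) z)
    (hχ : ∀ v, v ∉ S → χ 0 v * χ 1 v * χ 2 v = 1) (F : ℂ → ℂ) (hF : IsTriple k S x y z F) :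
    ∃ m : ℕ, analyticOrderAt F (((k : ℝ) / 2 : ℝ) : ℂ) = m ∧
    -- (1) one exponent
    (∀ R : ℝ → ℝ, R = product k S x y z ∨ R = productStar k S x y z →
      (∀ l Q : ℝ, 1 < l → Upper R l Q →
        NoZeros k F ∧ l ^ m ≤ Q ∧ ∀ q : ℝ, 0 < q → Lower R l q → q ≤ l ^ m) ∧
      ∀ l ρ : ℝ, 1 < l → Tendsto (fun t : ℝ => R (t ^ l) / R t) atTop (𝓝 ρ) → NoZeros k F ∧ ρ = l ^ m) ∧
    -- (2) the order of magnitude
    (∀ κ : ℝ, OfOrder (product k S x y z) κ ↔ κ = m ∧ Regular (product k S x y z)) ∧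
    -- (3) the asymptotics
    (∀ (r : ℕ) (A : ℝ), 0 < A → (Tendsto (fun t : ℝ => (Real.exp Real.eulerMascheroniConstant * Real.log t) ^ r /
        productStar k S x y z t) atTop (𝓝 A) ↔ Conv (productStar k S x y z) ∧ m = r ∧ Leading k F m A)) ∧
    (Conv (productStar k S x y z) ↔
      ∃ κ b : ℝ, 0 < b ∧ Tendsto (fun t : ℝ => productStar k S x y z t / Real.log t ^ κ) atTop (𝓝 b)) ∧
    (Conv (productStar k S x y z) → ∃ A : ℝ, 0 < A ∧ Leading k F m A) := by
  have hc : (k : ℝ) / 2 = (((k - 1 : ℕ) : ℝ) + 1) / 2 := by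
    rw [Nat.cast_sub hk, Nat.cast_one, sub_add_cancel]
  have hH : Pool.Agent.Q190.RV.Holo ((k : ℝ) / 2) S (Pool.Agent.Q190.RV.Triple.par x y z) F := by
    refine ⟨hF.holo, fun s hs => ?_⟩
    refine (hF.euler s (by linarith)).congr_fun fun v => ?_
    rw [Pool.Agent.Q190.RV.Triple.factor_par]
  have hP := Pool.Agent.Q190.RV.Triple.pure hx hy hz hχ
  obtain ⟨m, hm⟩ := hH.order_finite' hc hP.le
  rw [Pool.Agent.Q190.RV.Triple.product_eq, Pool.Agent.Q190.RV.Triple.star_eq]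
  obtain ⟨a, ha0, ha⟩ := hH.leading hm
  have t := Pool.Agent.Q190.RV.s_law hc hP.le hH hm ha ha0
  refine ⟨m, hm, fun R hR => ?_, fun κ => ?_, fun r A hA => ?_, ?_, fun hcv => ?_⟩
  · have hR' : Pool.Agent.Q190.RV.Ratios ((k : ℝ) / 2) F m R := by
      rcases hR with rfl | rfl
      · exact Pool.Agent.Q190.RV.ratios hc hP.le hH hm
      · exact Pool.Agent.Q190.RV.ratios_star hc hP.le hH hm
    refine ⟨fun l Q hl hQ => ?_, hR'.limit⟩
    obtain ⟨h1, h2⟩ := hR'.upper l Q hl hQ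
    exact ⟨h1, h2, fun q hq0 hq => hR'.lower h1 l q hl hq0 hq⟩
  · exact (Pool.Agent.Q190.RV.order_law hc hP.le hH hm).1 κ
  · rw [Pool.Agent.Q190.RV.lead_iff' hc hP hH r hA]
    refine and_congr_right fun _ => ?_
    constructor
    · rintro ⟨h1, h2⟩
      have h3 : m = r := by
        have := hm.symm.trans h1
        exact_mod_cast this
      subst h3
      exact ⟨rfl, h2⟩
    · rintro ⟨rfl, h2⟩
      exact ⟨hm, h2⟩
  · exact t.out 3 1
  · obtain ⟨-, A, hA, h1, -⟩ := Pool.Agent.Q190.RV.conv_lead hc hP hH hm hcv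
    exact ⟨A, hA, h1⟩

end Pool.Agent.Results.MP_60ff09_nt.TripleProductRatios
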